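import Mathlib
import Pool.Agent.H983R4.GL.F3
import Pool.Agent.H855R2.SF.Dir

/-!
# Large central values of quadratic twists are never isolated on the critical line

Let `π` be a cuspidal representation of `PGL_2` over a number field `F`, and let `χ_D` run through the quadratic
characters of the problem, with `d = |D|`.  Over `ℚ` the function `L(π ⊗ χ_D, s)` is an L-function of degree
`m = 2 [F : ℚ]` with analytic conductor `C = O(d^2)`.  We prove: for `0 < κ < μ` there are `δ > 0` and `d₀` such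
that, if `d ≥ d₀` and `|L(π ⊗ χ_D, 1/2)| ≥ d^μ`, then `|L(π ⊗ χ_D, 1/2 + ix)| > d^κ` on a set of measure greater
than `δ h` in `[-h, h]`, for every `0 < h ≤ 1`, whatever the scale `h`.  Consequently the bound of Q1 holds for
`π` as soon as, for every `β > 0`, the bound `|L(π ⊗ χ_D, 1/2 + ix)| ≤ d^β` holds for `x` in ONE interval
`[-w, w]`, `w = w(D)` in `(0, 1]` arbitrarily small, outside a set of measure `o(w)`.

The theorem is stated for any family of L-functions of degree `m` with conductors `O(d^2)`; only classical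
facts are used: the functional equation, `Re μ_j < 1/2`, finite order, and `L(s) = O(C^ε)` in `Re s ≥ 1 + ε`.

Proof.  Jensen's formula on a circle with centre `1/2` and radius `r = r(κ, μ) h` and the functional equation
bound `log |L(1/2)|` by the mean of `log⁺ |L|` over the right half of the circle and `O(r log d)`.  The
Poisson-Jensen inequality in the half plane `Re s > 1/2` bounds `log⁺ |L|` at the points of this half circle by
means of `log⁺ |L|` over the critical line, and these are less than `μ log d` if `|L(1/2 + ix)| ≤ d^κ` for all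
but a small proportion of `[-h, h]`.
-/

set_option autoImplicit false

open Filter Topology MeasureTheory Real Set

namespace Pool.Agent.Results.MP_21d687_nt.CentralPersistence

/-- The data of an L-function of degree `m` over `ℚ`: the conductor `N`, the archimedean parameters `mu j` (the
factor at infinity is `∏ j, Γ_ℝ (s - mu j)`) and the L-function `f` (continued to the complex plane). -/
structure Datum (m : ℕ) where
  N : ℕ
  mu : Fin m → ℂ
  f : ℂ → ℂ

/-- The analytic conductor `C = N ∏ j, (1 + |mu j|)`. -/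
noncomputable def Datum.C {m : ℕ} (D : Datum m) : ℝ := D.N * ∏ j, (1 + ‖D.mu j‖)

/-- The classical properties: `N ≥ 1`, `Re (mu j) < 1/2`, `f` is entire, of finite order in the strip
`-1/4 ≤ Re s ≤ 5/4`, and satisfies the functional equation `Λ(s) = root N^(1/2-s) conj (Λ(1 - conj s))`,
`Λ(s) = f(s) ∏ j, Γ_ℝ (s - mu j)`, with `|root| = 1` (divided by the gamma factors of both sides). -/
structure Datum.Ok {m : ℕ} (D : Datum m) : Prop where
  N_pos : 0 < D.N
  mu_re : ∀ j, (D.mu j).re < 1 / 2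
  entire : Differentiable ℂ D.f
  order : ∃ A : ℝ, ∀ s : ℂ, -1 / 4 ≤ s.re → s.re ≤ 5 / 4 →
    ‖D.f s‖ ≤ Real.exp (A * (1 + |s.im|) ^ A)
  fe : ∃ root : ℂ, ‖root‖ = 1 ∧ ∀ s : ℂ,
    D.f s * ∏ j, (Complex.Gammaℝ (1 - s - (starRingEnd ℂ) (D.mu j)))⁻¹ =
      root * (D.N : ℂ) ^ (1 / 2 - s) * (starRingEnd ℂ) (D.f (1 - (starRingEnd ℂ) s)) *
        ∏ j, (Complex.Gammaℝ (s - D.mu j))⁻¹

variable {ι : Type}

/-- The bound `f(s) = O(C^ε)` in `Re s ≥ 1 + ε`, uniform in the family. -/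
def RightBound {m : ℕ} (D : ι → Datum m) : Prop := ∀ ε : ℝ, 0 < ε → ∃ B : ℝ, ∀ (i : ι) (s : ℂ),
  1 + ε ≤ s.re → ‖(D i).f s‖ ≤ B * (D i).C ^ ε

section proofs

open Pool.Agent.H983R4.GL H855R2.SF

theorem Datum.C_one {m : ℕ} {D : Datum m} (h : 0 < D.N) : 1 ≤ D.C := by
  have := cond_one_le h D.mu 0
  unfold Datum.C
  simpa using this

theorem afam {m : ℕ} (hm : 1 ≤ m) {D : ι → Datum m} (hD : ∀ i, (D i).Ok) (hM : RightBound D)
    {d : ι → ℝ} {b : ℝ} (hd : ∀ i, 1 ≤ d i ∧ (D i).C ≤ b * d i ^ 2) :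
    AFam ((2 * m : ℕ) : ℝ) (fun i => (D i).f)
      (fun i t => ((1 + |t|) * d i) ^ (((2 * m : ℕ) : ℝ))) where
  m0 := by positivity
  Q1 := by
    intro i t
    refine Real.one_le_rpow ?_ (by positivity)
    have h1 := (hd i).1
    nlinarith [abs_nonneg t]
  Qs := by
    intro i t u
    have h1 := (hd i).1
    have h2 : 1 + |t + u| ≤ (1 + |u|) * (1 + |t|) := by
      have := abs_add_le t u
      nlinarith [abs_nonneg t, abs_nonneg u, mul_nonneg (abs_nonneg t) (abs_nonneg u)]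
    rw [← Real.mul_rpow (by positivity) (by positivity)]
    refine Real.rpow_le_rpow (by positivity) ?_ (by positivity)
    calc (1 + |t + u|) * d i ≤ ((1 + |u|) * (1 + |t|)) * d i :=
          mul_le_mul_of_nonneg_right h2 (by linarith)
      _ = _ := by ring
  diff := fun i => (hD i).entire
  order := fun i => (hD i).order
  right := by
    intro δ hδ
    obtain ⟨B, hB⟩ := hM δ hδ
    refine ⟨|B| * |b| ^ δ, fun i s hs => ?_⟩
    have h1 := (D i).C_one (hD i).N_pos
    have h0 := (hd i).1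
    refine (hB i s hs).trans ?_
    have h2 : (D i).C ≤ |b| * ((1 + |s.im|) * d i) ^ (((2 * m : ℕ) : ℝ)) := by
      rw [Real.rpow_natCast]
      have h3 : d i ≤ (1 + |s.im|) * d i := by nlinarith [abs_nonneg s.im]
      have h4 : d i ^ 2 ≤ ((1 + |s.im|) * d i) ^ (2 * m) := by
        calc d i ^ 2 ≤ ((1 + |s.im|) * d i) ^ 2 := by gcongr
          _ ≤ ((1 + |s.im|) * d i) ^ (2 * m) := pow_le_pow_right₀ (by linarith) (by omega)
      calc (D i).C ≤ b * d i ^ 2 := (hd i).2
        _ ≤ |b| * d i ^ 2 := mul_le_mul_of_nonneg_right (le_abs_self b) (by positivity)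
        _ ≤ _ := mul_le_mul_of_nonneg_left h4 (abs_nonneg b)
    calc B * (D i).C ^ δ ≤ |B| * (D i).C ^ δ :=
          mul_le_mul_of_nonneg_right (le_abs_self B) (Real.rpow_nonneg (by linarith) _)
      _ ≤ |B| * (|b| * ((1 + |s.im|) * d i) ^ (((2 * m : ℕ) : ℝ))) ^ δ :=
          mul_le_mul_of_nonneg_left (Real.rpow_le_rpow (by linarith) h2 hδ.le) (abs_nonneg B)
      _ = _ := by rw [Real.mul_rpow (abs_nonneg b) (by positivity)]; ring
  refl := by
    refine ⟨16 ^ m * max 1 |b|, by positivity, fun i x t hx0 hx1 => ?_⟩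
    obtain ⟨root, hroot, hfe⟩ := (hD i).fe
    have h1 := (D i).C_one (hD i).N_pos
    have h0 := (hd i).1
    refine (refl_of_fe (hD i).N_pos (D i).mu (hD i).mu_re hroot hfe (t := t) hx0 hx1).trans ?_
    refine mul_le_mul_of_nonneg_right ?_ (norm_nonneg _)
    rw [mul_assoc]
    refine mul_le_mul_of_nonneg_left ?_ (by positivity)
    have h2 := cond_shift (D i).N (D i).mu 0 t
    have e1 : (D i).N * ∏ j, (1 + ‖(D i).mu j - ((0 : ℝ) : ℂ) * Complex.I‖) = (D i).C := by
      unfold Datum.C; simp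
    rw [e1, zero_add] at h2
    have h3 : (1 + |t|) ^ (m : ℝ) * (D i).C ≤
        max 1 |b| * ((1 + |t|) * d i) ^ (((2 * m : ℕ) : ℝ)) := by
      rw [Real.rpow_natCast, Real.rpow_natCast]
      have h4 : (D i).C ≤ max 1 |b| * d i ^ 2 := by
        refine (hd i).2.trans (mul_le_mul_of_nonneg_right ?_ (by positivity))
        exact (le_abs_self b).trans (le_max_right _ _)
      have h5 : d i ^ 2 ≤ d i ^ (2 * m) := pow_le_pow_right₀ h0 (by omega)
      have h6 : (1 + |t|) ^ m ≤ (1 + |t|) ^ (2 * m) :=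
        pow_le_pow_right₀ (by linarith [abs_nonneg t]) (by omega)
      calc (1 + |t|) ^ m * (D i).C ≤ (1 + |t|) ^ (2 * m) * (max 1 |b| * d i ^ (2 * m)) := by
            refine mul_le_mul h6 (h4.trans ?_) (by linarith) (by positivity)
            exact mul_le_mul_of_nonneg_left h5 (by positivity)
        _ = max 1 |b| * ((1 + |t|) * d i) ^ (2 * m) := by rw [mul_pow]; ring
    have h70 : 0 ≤ ((D i).N : ℝ) * ∏ j, (1 + ‖(D i).mu j - (t : ℂ) * Complex.I‖) :=
      mul_nonneg (Nat.cast_nonneg _) (Finset.prod_nonneg fun j _ => by positivity)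
    have h7 := Real.rpow_le_rpow h70 (h2.trans h3) hx0
    have h8 : (0:ℝ) ≤ max 1 |b| := by positivity
    have h9 : (0:ℝ) ≤ ((1 + |t|) * d i) ^ (((2 * m : ℕ) : ℝ)) :=
      Real.rpow_nonneg (mul_nonneg (by positivity) (by linarith)) _
    rw [Real.mul_rpow h8 h9] at h7
    refine h7.trans (mul_le_mul_of_nonneg_right ?_ (Real.rpow_nonneg h9 _))
    conv_rhs => rw [← Real.rpow_one (max 1 |b|)]
    exact Real.rpow_le_rpow_of_exponent_le (le_max_left _ _) (by linarith : x ≤ 1)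

end proofs

theorem result (ι : Type) (m : ℕ) (D : ι → Datum m) (d : ι → ℝ) (b : ℝ) (hm : 1 ≤ m)
    (hD : ∀ i, (D i).Ok) (hR : RightBound D) (hd : ∀ i, 1 ≤ d i ∧ (D i).C ≤ b * d i ^ 2) :
    (∀ κ μ : ℝ, 0 < κ → κ < μ → ∃ δ d₀ : ℝ, 0 < δ ∧ ∀ i, d₀ ≤ d i → d i ^ μ ≤ ‖(D i).f (1 / 2)‖ →
      ∀ h : ℝ, 0 < h → h ≤ 1 →
        ENNReal.ofReal (δ * h) < volume {x : ℝ | |x| ≤ h ∧ d i ^ κ < ‖(D i).f (1 / 2 + x * Complex.I)‖}) ∧
    (∀ w : ι → ℝ, (∀ i, 0 < w i ∧ w i ≤ 1) →
      (∀ β : ℝ, 0 < β → ∀ η : ℝ, 0 < η → ∃ d₀ : ℝ, ∀ i, d₀ ≤ d i →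
        volume {x : ℝ | |x| ≤ w i ∧ d i ^ β < ‖(D i).f (1 / 2 + x * Complex.I)‖} ≤
          ENNReal.ofReal (η * w i)) →
      ∀ β : ℝ, 0 < β → ∃ B : ℝ, ∀ i, ‖(D i).f (1 / 2)‖ ≤ B * d i ^ β) := by
  have H : Pool.Agent.H983R4.GL.Fam (fun i => (D i).f) (fun i t => (1 + |t|) * d i) := by
    refine Pool.Agent.H983R4.GL.Fam.of_afam (p := ((2 * m : ℕ) : ℝ)) (afam hm hD hR hd) ?_ ?_
      fun _ _ => rfl
    · have : 0 < 2 * m := by omega
      exact_mod_cast this
    · intro i t
      have h1 := (hd i).1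
      nlinarith [abs_nonneg t]
  have hset : ∀ (i : ι) (κ h : ℝ), Pool.Agent.H983R4.GL.Big (fun i => (D i).f)
      (fun i t => (1 + |t|) * d i) κ i 0 h =
        {x : ℝ | |x| ≤ h ∧ d i ^ κ < ‖(D i).f (1 / 2 + x * Complex.I)‖} := by
    intro i κ h
    unfold Pool.Agent.H983R4.GL.Big
    simp
  refine ⟨fun κ μ h1 h2 => ?_, fun w hw hs β hβ => ?_⟩
  · obtain ⟨δ, hδ, X₀, h⟩ := H.persist h1 h2
    refine ⟨δ, X₀, hδ, fun i hi hv r hr0 hr1 => ?_⟩
    have h3 := h i 0 (by simpa using hi) (by simpa using hv) r hr0 hr1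
    rwa [hset] at h3
  · have h3 := H.points (κ₀ := 0) le_rfl {p : ι × ℝ | p.2 = 0} (w := fun i _ => w i)
      (fun i _ => hw i) (fun ε hε η hη => by
        obtain ⟨d₀, hd₀⟩ := hs ε hε η hη
        refine ⟨d₀, fun i T hT hX => ?_⟩
        have hT0 : T = 0 := hT
        subst hT0
        rw [zero_add, hset]
        exact hd₀ i (by simpa using hX))
    obtain ⟨B, hB⟩ := h3 β hβ
    refine ⟨B, fun i => ?_⟩
    have h4 := hB i 0 rfl
    simpa using h4

end Pool.Agent.Results.MP_21d687_nt.CentralPersistence
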